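import Pool.Agent.Helper89.FV.Iface

/-!
# Block OA1: the group algebra (adjoint, trace, 2-norm, operator norm)
-/

namespace Pool.Agent.Helper89.FV

open Pool.Agent.Helper96.Fc

theorem adj_add (a b : Alg) : adj (a + b) = adj a + adj b := by
  unfold adj
  rw [MonoidAlgebra.coeff_add]
  apply Finsupp.sum_add_index'
  · intro g; simp
  · intro g c d; simp

theorem adj_single (g : Equiv.Perm ℕ) (c : ℂ) :
    adj (MonoidAlgebra.single g c) = MonoidAlgebra.single g⁻¹ (starRingEnd ℂ c) := by
  unfold adj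
  rw [MonoidAlgebra.coeff_single, Finsupp.sum_single_index]
  simp

theorem adj_zero : adj 0 = 0 := by
  have := adj_single 1 0
  simpa using this

theorem adj_neg (a : Alg) : adj (-a) = -adj a := by
  have h := adj_add a (-a)
  rw [add_neg_cancel, adj_zero] at h
  exact (neg_eq_of_add_eq_zero_right h.symm).symm

theorem adj_sub (a b : Alg) : adj (a - b) = adj a - adj b := by
  rw [sub_eq_add_neg, adj_add, adj_neg, ← sub_eq_add_neg]

theorem adj_mul (a b : Alg) : adj (a * b) = adj b * adj a := by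
  induction a using MonoidAlgebra.induction_linear with
  | zero => simp [adj_zero]
  | add x y hx hy => rw [add_mul, adj_add, hx, hy, adj_add, mul_add]
  | single g c =>
    induction b using MonoidAlgebra.induction_linear with
    | zero => simp [adj_zero]
    | add x y hx hy => rw [mul_add, adj_add, hx, hy, adj_add, add_mul]
    | single h d =>
      rw [MonoidAlgebra.single_mul_single, adj_single, adj_single, adj_single,
        MonoidAlgebra.single_mul_single, mul_inv_rev, map_mul, mul_comm (starRingEnd ℂ c)]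

theorem adj_adj (a : Alg) : adj (adj a) = a := by
  induction a using MonoidAlgebra.induction_linear with
  | zero => simp [adj_zero]
  | add x y hx hy => rw [adj_add, adj_add, hx, hy]
  | single g c => rw [adj_single, adj_single]; simp

theorem adj_one : adj 1 = 1 := by
  rw [MonoidAlgebra.one_def, adj_single]; simp

theorem tr_add (a b : Alg) : tr (a + b) = tr a + tr b := by
  unfold tr; rw [MonoidAlgebra.coeff_add]; rfl

theorem tr_zero : tr 0 = 0 := rfl

theorem tr_neg (a : Alg) : tr (-a) = -tr a := by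
  have h := tr_add a (-a)
  rw [add_neg_cancel, tr_zero] at h
  linear_combination -h

theorem tr_sub (a b : Alg) : tr (a - b) = tr a - tr b := by
  rw [sub_eq_add_neg, tr_add, tr_neg, ← sub_eq_add_neg]

open Classical in
theorem tr_single (g : Equiv.Perm ℕ) (c : ℂ) :
    tr (MonoidAlgebra.single g c) = if g = 1 then c else 0 := by
  unfold tr
  rw [MonoidAlgebra.coeff_single, Finsupp.single_apply]

theorem tr_one : tr 1 = 1 := by
  rw [MonoidAlgebra.one_def, tr_single]; simp

theorem tr_mul_comm (a b : Alg) : tr (a * b) = tr (b * a) := by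
  induction a using MonoidAlgebra.induction_linear with
  | zero => simp
  | add x y hx hy => rw [add_mul, tr_add, hx, hy, mul_add, tr_add]
  | single g c =>
    induction b using MonoidAlgebra.induction_linear with
    | zero => simp
    | add x y hx hy => rw [mul_add, tr_add, hx, hy, add_mul, tr_add]
    | single h d =>
      rw [MonoidAlgebra.single_mul_single, MonoidAlgebra.single_mul_single, tr_single, tr_single,
        mul_comm c d]
      have : g * h = 1 ↔ h * g = 1 := mul_eq_one_comm
      by_cases hg : g * h = 1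
      · rw [if_pos hg, if_pos (this.1 hg)]
      · rw [if_neg hg, if_neg (fun h' => hg (this.2 h'))]

theorem tr_adj (a : Alg) : tr (adj a) = starRingEnd ℂ (tr a) := by
  induction a using MonoidAlgebra.induction_linear with
  | zero => rw [adj_zero, tr_zero]; simp
  | add x y hx hy => rw [adj_add, tr_add, hx, hy, tr_add, map_add]
  | single g c =>
    rw [adj_single, tr_single, tr_single]
    by_cases h : g = 1 <;> simp [h]

/-- `tr (a^* b) = ∑ conj(a_g) b_g` -/
theorem tr_adj_mul (a b : Alg) :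
    tr (adj a * b) = b.coeff.sum fun g c => starRingEnd ℂ (a.coeff g) * c := by
  induction b using MonoidAlgebra.induction_linear with
  | zero => simp [tr_zero]
  | add x y hx hy =>
    rw [mul_add, tr_add, hx, hy, MonoidAlgebra.coeff_add, Finsupp.sum_add_index']
    · intro g; simp
    · intro g c d; ring
  | single h d =>
    rw [MonoidAlgebra.coeff_single, Finsupp.sum_single_index (by simp)]
    induction a using MonoidAlgebra.induction_linear with
    | zero => simp [adj_zero, tr_zero]
    | add x y hx hy =>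
      rw [adj_add, add_mul, tr_add, hx, hy, MonoidAlgebra.coeff_add, Finsupp.add_apply, map_add]
      ring
    | single g c =>
      rw [adj_single, MonoidAlgebra.single_mul_single, tr_single]
      classical
      rw [MonoidAlgebra.coeff_single, Finsupp.single_apply]
      have : g⁻¹ * h = 1 ↔ g = h := inv_mul_eq_one
      by_cases hg : g = h
      · subst hg; simp
      · rw [if_neg (fun h' => hg (this.1 h')), if_neg hg]; simp

/-- the 2-norm as a sum over a large finite set -/
theorem nsq_eq_sum (a : Alg) {s : Finset (Equiv.Perm ℕ)} (hs : a.coeff.support ⊆ s) :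
    nsq a = ∑ g ∈ s, ‖a.coeff g‖ ^ 2 := by
  unfold nsq
  exact Finsupp.sum_of_support_subset _ hs _ (by simp)

theorem nsq_eq_tr (a : Alg) : ((nsq a : ℝ) : ℂ) = tr (adj a * a) := by
  rw [tr_adj_mul]
  unfold nsq Finsupp.sum
  push_cast
  apply Finset.sum_congr rfl
  intro g _
  rw [← Complex.normSq_eq_conj_mul_self, Complex.normSq_eq_norm_sq]
  push_cast
  rfl

theorem nsq_nonneg (a : Alg) : 0 ≤ nsq a := by
  unfold nsq Finsupp.sum
  positivity

theorem nsq_zero : nsq 0 = 0 := by
  unfold nsq; simp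

theorem nsq_one : nsq 1 = 1 := by
  have h := nsq_eq_tr 1
  rw [adj_one, one_mul, tr_one] at h
  exact_mod_cast h

theorem nsq_neg (a : Alg) : nsq (-a) = nsq a := by
  have h := nsq_eq_tr (-a)
  rw [adj_neg, neg_mul_neg, ← nsq_eq_tr] at h
  exact_mod_cast h

theorem nsq_adj (a : Alg) : nsq (adj a) = nsq a := by
  have h := nsq_eq_tr (adj a)
  rw [adj_adj, tr_mul_comm, ← nsq_eq_tr] at h
  exact_mod_cast h

/-- the triangle inequality, in the form that is used -/
theorem nsq_add_le (a b : Alg) : nsq (a + b) ≤ 2 * nsq a + 2 * nsq b := by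
  classical
  set s := a.coeff.support ∪ b.coeff.support with hs
  have h1 : (a + b).coeff.support ⊆ s := by
    rw [MonoidAlgebra.coeff_add]
    exact Finsupp.support_add
  rw [nsq_eq_sum (a + b) h1, nsq_eq_sum a (s := s) Finset.subset_union_left,
    nsq_eq_sum b (s := s) Finset.subset_union_right, Finset.mul_sum, Finset.mul_sum,
    ← Finset.sum_add_distrib]
  apply Finset.sum_le_sum
  intro g _
  rw [MonoidAlgebra.coeff_add, Finsupp.add_apply]
  have h := norm_add_le (a.coeff g) (b.coeff g)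
  have h0 := norm_nonneg (a.coeff g + b.coeff g)
  nlinarith [sq_nonneg (‖a.coeff g‖ - ‖b.coeff g‖)]

/-- Cauchy-Schwarz -/
theorem norm_tr_mul_le (a b : Alg) : ‖tr (adj a * b)‖ ^ 2 ≤ nsq a * nsq b := by
  classical
  set s := a.coeff.support ∪ b.coeff.support with hs
  rw [nsq_eq_sum a (s := s) Finset.subset_union_left,
    nsq_eq_sum b (s := s) Finset.subset_union_right, tr_adj_mul,
    Finsupp.sum_of_support_subset _ (s := s) Finset.subset_union_right _ (by simp)]
  have h1 : ‖∑ g ∈ s, starRingEnd ℂ (a.coeff g) * b.coeff g‖ ≤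
      ∑ g ∈ s, ‖a.coeff g‖ * ‖b.coeff g‖ := by
    refine (norm_sum_le _ _).trans (Finset.sum_le_sum fun g _ => ?_)
    rw [norm_mul, RCLike.norm_conj]
  calc _ ≤ (∑ g ∈ s, ‖a.coeff g‖ * ‖b.coeff g‖) ^ 2 := by
        gcongr
    _ ≤ _ := Finset.sum_mul_sq_le_sq_mul_sq s _ _

theorem norm_tr_le (a : Alg) : ‖tr a‖ ^ 2 ≤ nsq a := by
  have h := norm_tr_mul_le 1 a
  rwa [adj_one, one_mul, nsq_one, one_mul] at h

/-- `‖a - 1‖₂² = ‖a‖₂² + 1 - 2 Re tr a` -/
theorem nsq_sub_one (a : Alg) : nsq (a - 1) = nsq a + 1 - 2 * (tr a).re := by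
  have h := nsq_eq_tr (a - 1)
  have e : adj (a - 1) * (a - 1) = adj a * a - adj a - a + 1 := by
    rw [adj_sub, adj_one]; noncomm_ring
  rw [e, tr_add, tr_sub, tr_sub, tr_adj, tr_one, ← nsq_eq_tr] at h
  have h2 := congrArg Complex.re h
  simp only [Complex.add_re, Complex.sub_re, Complex.ofReal_re, Complex.conj_re,
    Complex.one_re] at h2
  linarith

theorem OpLe.adj {C : ℕ} {a : Alg} (h : OpLe C a) : OpLe C (adj a) := by
  intro η
  set ξ := Pool.Agent.Helper89.FV.adj a * η with hξ
  have h1 : ((nsq ξ : ℝ) : ℂ) = tr (Pool.Agent.Helper89.FV.adj η * (a * ξ)) := by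
    rw [nsq_eq_tr]
    conv_lhs => rw [hξ, adj_mul, adj_adj]
    rw [mul_assoc]
  have h2 := norm_tr_mul_le η (a * ξ)
  rw [← h1, Complex.norm_real, Real.norm_of_nonneg (nsq_nonneg ξ)] at h2
  have h3 := h ξ
  have h0 := nsq_nonneg ξ
  have h4 := nsq_nonneg η
  by_cases hx : nsq ξ = 0
  · rw [hx]; positivity
  · have hx' : 0 < nsq ξ := lt_of_le_of_ne h0 (Ne.symm hx)
    have h5 : nsq ξ * nsq ξ ≤ ((C : ℝ) ^ 2 * nsq η) * nsq ξ := by
      calc nsq ξ * nsq ξ = nsq ξ ^ 2 := by ring
        _ ≤ nsq η * nsq (a * ξ) := h2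
        _ ≤ nsq η * ((C : ℝ) ^ 2 * nsq ξ) := by gcongr
        _ = _ := by ring
    exact le_of_mul_le_mul_right h5 hx'

theorem OpLe.mul {C D : ℕ} {a b : Alg} (ha : OpLe C a) (hb : OpLe D b) :
    OpLe (C * D) (a * b) := by
  intro ξ
  rw [mul_assoc]
  calc nsq (a * (b * ξ)) ≤ (C : ℝ) ^ 2 * nsq (b * ξ) := ha _
    _ ≤ (C : ℝ) ^ 2 * ((D : ℝ) ^ 2 * nsq ξ) := by gcongr; exact hb ξ
    _ = _ := by push_cast; ring

theorem OpLe.one : OpLe 1 1 := by
  intro ξ
  simp

/-- multiplication on the right -/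
theorem OpLe.right {C : ℕ} {a : Alg} (h : OpLe C a) (ξ : Alg) :
    nsq (ξ * a) ≤ (C : ℝ) ^ 2 * nsq ξ := by
  rw [← nsq_adj (ξ * a), adj_mul, ← nsq_adj ξ]
  exact h.adj _

theorem IsU.nsq_mul_left {a : Alg} (h : IsU a) (ξ : Alg) : nsq (a * ξ) = nsq ξ := by
  have h1 := nsq_eq_tr (a * ξ)
  have e : adj (a * ξ) * (a * ξ) = adj ξ * ξ := by
    rw [adj_mul]
    calc adj ξ * adj a * (a * ξ) = adj ξ * (adj a * a) * ξ := by noncomm_ring
      _ = _ := by rw [h.1, mul_one]
  rw [e, ← nsq_eq_tr] at h1
  exact_mod_cast h1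

theorem IsU.nsq_mul_right {a : Alg} (h : IsU a) (ξ : Alg) : nsq (ξ * a) = nsq ξ := by
  have h1 := nsq_eq_tr (ξ * a)
  have e : tr (adj (ξ * a) * (ξ * a)) = tr (adj ξ * ξ) := by
    rw [adj_mul, mul_assoc, tr_mul_comm]
    calc tr (adj ξ * (ξ * a) * adj a) = tr (adj ξ * ξ * (a * adj a)) := by
          congr 1; noncomm_ring
      _ = _ := by rw [h.2, mul_one]
  rw [e, ← nsq_eq_tr] at h1
  exact_mod_cast h1

theorem IsU.opLe {a : Alg} (h : IsU a) : OpLe 1 a := by
  intro ξ
  rw [h.nsq_mul_left]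
  simp

end Pool.Agent.Helper89.FV
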